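import Mathlib

namespace Pool.Agent.Results.MP_95a664_lc.NoTukeyMinimal

universe u

/-- `I` is a proper ideal of subsets of `X` whose union is all of `X`. -/
def IsIdealOn {X : Type} (I : Set (Set X)) : Prop :=
  (∀ A B : Set X, A ⊆ B → B ∈ I → A ∈ I) ∧ (∀ A ∈ I, ∀ B ∈ I, A ∪ B ∈ I) ∧
    ⋃₀ I = Set.univ ∧ Set.univ ∉ I

/-- Tukey order: some map `Q → P` sends cofinal sets onto cofinal sets. -/
def TukeyLE (P : Type u) [PartialOrder P] (Q : Type) [PartialOrder Q] : Prop :=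
  ∃ f : Q → P, ∀ B : Set Q, IsCofinal B → IsCofinal (f '' B)

/-- `Q` is `I`-cohesive. -/
def Cohesive {X : Type} (I : Set (Set X)) (Q : Type) [PartialOrder Q] : Prop :=
  ∃ q : X → Q, ∀ S : Set X, S ∉ I → ¬ BddAbove (q '' S)

def J : Set (Set (ℕ × ℝ)) :=
  {S | ∃ n : ℕ, ∃ c : Set ℝ, c.Countable ∧ S ⊆ {p | p.1 < n ∨ p.2 ∈ c}}

lemma J_ideal : IsIdealOn J := by
  refine ⟨?_, ?_, ?_, ?_⟩
  · rintro A B hAB ⟨n, c, hc, h⟩
    exact ⟨n, c, hc, hAB.trans h⟩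
  · rintro A ⟨n, c, hc, h⟩ B ⟨m, d, hd, h'⟩
    refine ⟨max n m, c ∪ d, hc.union hd, ?_⟩
    rintro p (hp | hp)
    · rcases h hp with h1 | h1
      · exact Or.inl (lt_of_lt_of_le h1 (le_max_left _ _))
      · exact Or.inr (Or.inl h1)
    · rcases h' hp with h1 | h1
      · exact Or.inl (lt_of_lt_of_le h1 (le_max_right _ _))
      · exact Or.inr (Or.inr h1)
  · refine Set.eq_univ_of_forall fun p => ⟨{p}, ⟨p.1 + 1, ∅, Set.countable_empty, ?_⟩, rfl⟩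
    rintro q rfl
    exact Or.inl (Nat.lt_succ_self _)
  · rintro ⟨n, c, hc, h⟩
    have : ∃ x : ℝ, x ∉ c := by
      by_contra hx
      push Not at hx
      have : c = Set.univ := Set.eq_univ_of_forall hx
      exact Cardinal.not_countable_real (this ▸ hc)
    obtain ⟨x, hx⟩ := this
    rcases h (Set.mem_univ (n, x)) with h1 | h1
    · exact lt_irrefl _ h1
    · exact hx h1

lemma tail {P : Type u} [PartialOrder P] {Q : Type} [PartialOrder Q] (f : Q → P)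
    (hf : ∀ B : Set Q, IsCofinal B → IsCofinal (f '' B)) (p : P) :
    ∃ q : Q, ∀ q', q ≤ q' → p ≤ f q' := by
  by_contra h
  push Not at h
  have : IsCofinal {q' : Q | ¬ p ≤ f q'} := fun q => by
    obtain ⟨q', h1, h2⟩ := h q
    exact ⟨q', h2, h1⟩
  obtain ⟨_, ⟨q', hq', rfl⟩, h2⟩ := hf _ this p
  exact hq' h2

def C : Type := {c : Set ℝ // c.Countable}

instance : PartialOrder C := inferInstanceAs (PartialOrder {c : Set ℝ // c.Countable})

theorem result : ∃ (X : Type) (I : Set (Set X)), IsIdealOn I ∧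
    ∀ (P : Type u) [PartialOrder P],
      ¬ ∀ (Q : Type) [PartialOrder Q] [Nonempty Q] [IsDirectedOrder Q],
        (TukeyLE P Q ↔ Cohesive I Q) := by
  refine ⟨ℕ × ℝ, J, J_ideal, fun P _ h => ?_⟩
  have h1 : Cohesive J ℕ := by
    refine ⟨fun p => p.1, fun S hS ⟨n, hn⟩ => hS ⟨n + 1, ∅, Set.countable_empty, fun p hp => ?_⟩⟩
    exact Or.inl (Nat.lt_succ_of_le (hn ⟨p, hp, rfl⟩))
  have : Nonempty C := ⟨⟨∅, Set.countable_empty⟩⟩
  have : IsDirectedOrder C := ⟨fun a b => ⟨⟨a.1 ∪ b.1, a.2.union b.2⟩,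
    (Set.subset_union_left : a.1 ⊆ a.1 ∪ b.1), (Set.subset_union_right : b.1 ⊆ a.1 ∪ b.1)⟩⟩
  have h2 : Cohesive J C := by
    refine ⟨fun p => ⟨{p.2}, Set.countable_singleton _⟩,
      fun S hS ⟨c, hc⟩ => hS ⟨0, c.1, c.2, fun p hp => ?_⟩⟩
    have : ({p.2} : Set ℝ) ⊆ c.1 := hc ⟨p, hp, rfl⟩
    exact Or.inr (this rfl)
  obtain ⟨f, hf⟩ := (h ℕ).2 h1
  obtain ⟨g, hg⟩ := (h C).2 h2
  choose c hc using fun n => tail g hg (f n)
  let d : C := ⟨⋃ n, (c n).1, Set.countable_iUnion fun n => (c n).2⟩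
  have htop : ∀ p : P, p ≤ g d := fun p => by
    obtain ⟨_, ⟨n, -, rfl⟩, hn⟩ := hf Set.univ (fun q => ⟨q, trivial, le_rfl⟩) p
    exact hn.trans (hc n d (Set.subset_iUnion (fun n => (c n).1) n))
  have h3 : TukeyLE P Unit := by
    refine ⟨fun _ => g d, fun B hB p => ?_⟩
    obtain ⟨b, hb, -⟩ := hB ()
    exact ⟨g d, ⟨b, hb, rfl⟩, htop p⟩
  obtain ⟨q, hq⟩ := (h Unit).1 h3
  exact hq Set.univ J_ideal.2.2.2 ⟨(), fun _ _ => le_rfl⟩

end Pool.Agent.Results.MP_95a664_lc.NoTukeyMinimal
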